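import Mathlib

/-! The free product of a residually finite group with the infinite cyclic group is residually
finite. -/

namespace Pool.Agent.Lib.MP_570070_gt

open HNNExtension NormalWord

variable {B : Type} [Group B]

theorem hnn_countable [Countable B] {A A' : Subgroup B} (φ : A ≃* A') :
    Countable (HNNExtension B A A' φ) := by
  obtain ⟨d⟩ := TransversalPair.nonempty B A A'
  have : Countable (NormalWord d) :=
    Function.Injective.countable (f := fun w : NormalWord d => (w.head, w.toList))
      fun _ _ h => NormalWord.ext (congrArg Prod.fst h) (congrArg Prod.snd h)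
  exact (NormalWord.equiv φ d).injective.countable

theorem free_sep_finite [Finite B] (φ : (⊥ : Subgroup B) ≃* (⊥ : Subgroup B))
    (g : HNNExtension B ⊥ ⊥ φ) (hg : g ≠ 1) :
    ∃ (H : Type) (_ : Group H) (_ : Finite H) (f : HNNExtension B ⊥ ⊥ φ →* H), f g ≠ 1 := by
  classical
  obtain ⟨d⟩ := TransversalPair.nonempty B ⊥ ⊥
  set l := (g • (NormalWord.empty : NormalWord d)).toList.length with hl
  let F := {w : NormalWord d // w.toList.length ≤ l}
  have : Finite {s : List (ℤˣ × B) // s.length ≤ l} := List.finite_length_le (ℤˣ × B) l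
  have : Finite F := Finite.of_injective
    (fun w : F => ((w.1.head, ⟨w.1.toList, w.2⟩) : B × {s : List (ℤˣ × B) // s.length ≤ l}))
    fun _ _ h => Subtype.ext (NormalWord.ext (congrArg Prod.fst h)
      (congrArg (fun z => z.2.1) h))
  let β : B →* Equiv.Perm F :=
    { toFun := fun b => Equiv.subtypeEquiv (MulAction.toPerm b) fun w => by simp
      map_one' := by ext1 w; exact Subtype.ext (one_smul B w.1)
      map_mul' := fun a b => by ext1 w; exact Subtype.ext (mul_smul a b w.1) }
  let e : {x : F // ((t : HNNExtension B ⊥ ⊥ φ) • x.1).toList.length ≤ l} ≃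
      {x : F // ((t : HNNExtension B ⊥ ⊥ φ)⁻¹ • x.1).toList.length ≤ l} :=
    { toFun := fun x => ⟨⟨_, x.2⟩, by simpa using x.1.2⟩
      invFun := fun x => ⟨⟨_, x.2⟩, by simpa using x.1.2⟩
      left_inv := fun x => by simp
      right_inv := fun x => by simp }
  let f : HNNExtension B ⊥ ⊥ φ →* Equiv.Perm F := HNNExtension.lift β e.extendSubtype fun a => by
    rw [Subgroup.mem_bot.1 a.2, Subgroup.mem_bot.1 (φ a).2, map_one, mul_one, one_mul]
  have h0 : ∀ (b : B) (x : F), (f (of b) x).1 = b • x.1 := fun b x => by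
    rw [lift_of]
    rfl
  have h1 : ∀ (u : ℤˣ) (x : F) (h : ((t ^ (u : ℤ) : HNNExtension B ⊥ ⊥ φ) • x.1).toList.length ≤ l),
      f (t ^ (u : ℤ)) x = ⟨_, h⟩ := by
    intro u x h
    rcases Int.units_eq_one_or u with rfl | rfl
    · simp only [Units.val_one, zpow_one, f, lift_t] at h ⊢
      exact e.extendSubtype_apply_of_mem x h
    · simp only [Units.val_neg, Units.val_one, zpow_neg, zpow_one, f, lift_t, map_inv] at h ⊢
      rw [Equiv.Perm.inv_eq_iff_eq, e.extendSubtype_apply_of_mem _ (by simpa using x.2)]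
      exact Subtype.ext (by simp [e])
  have h2 : ∀ (w : NormalWord d) (h : w.toList.length ≤ l),
      f (w.prod φ) ⟨NormalWord.empty, by simp⟩ = ⟨w, h⟩ := by
    intro w
    induction w using consRecOn with
    | ofGroup b =>
      intro h
      have e1 : (ofGroup b : NormalWord d).prod φ = of b := by simp [ReducedWord.prod]
      refine Subtype.ext ?_
      rw [e1, h0]
      simp [ofGroup, group_smul_def]
    | cons b u w a1 a2 ih =>
      intro h
      have h3 := prod_smul_empty φ (cons b u w a1 a2)
      rw [prod_cons, mul_smul, mul_smul, prod_smul_empty, of_smul_eq_smul] at h3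
      have h4 : ((t ^ (u : ℤ) : HNNExtension B ⊥ ⊥ φ) • w).toList.length ≤ l := by
        rwa [← h3, group_smul_toList] at h
      have h5 : w.toList.length ≤ l := by
        simp only [cons_toList, List.length_cons] at h
        omega
      rw [prod_cons, map_mul, map_mul, Equiv.Perm.mul_apply, Equiv.Perm.mul_apply, ih h5,
        h1 u _ h4]
      exact Subtype.ext ((h0 _ _).trans h3)
  refine ⟨Equiv.Perm F, inferInstance, inferInstance, f, fun h => hg ?_⟩
  have h6 := h2 (g • NormalWord.empty) le_rfl
  rw [prod_smul, prod_empty, mul_one, h] at h6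
  have h7 := congrArg (fun w : F => w.1.prod φ) h6
  simpa using h7.symm

theorem free_residuallyFinite [Group.ResiduallyFinite B]
    (φ : (⊥ : Subgroup B) ≃* (⊥ : Subgroup B)) :
    Group.ResiduallyFinite (HNNExtension B ⊥ ⊥ φ) := by
  classical
  refine Group.residuallyFinite_of_forall_exists_finite_monoidHom.{0} fun g hg => ?_
  obtain ⟨d⟩ := TransversalPair.nonempty B ⊥ ⊥
  obtain ⟨w, rfl⟩ : ∃ w : NormalWord d, w.prod φ = g := (NormalWord.equiv φ d).symm.surjective g
  obtain ⟨M, hM⟩ : ∃ M : FiniteIndexNormalSubgroup B,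
      ∀ b ∈ w.head :: w.toList.map Prod.snd, b ∈ M → b = 1 := by
    generalize w.head :: w.toList.map Prod.snd = s
    induction s with
    | nil => exact ⟨FiniteIndexNormalSubgroup.ofSubgroup ⊤, by simp⟩
    | cons b s ih =>
      obtain ⟨M, hM⟩ := ih
      by_cases hb : b = 1
      · exact ⟨M, by simpa [hb] using hM⟩
      · obtain ⟨M', hM'⟩ := Group.exists_finiteIndexNormalSubgroup_notMem b hb
        refine ⟨M ⊓ M', fun c hc h => ?_⟩
        rcases List.mem_cons.1 hc with rfl | hc
        · exact absurd h.2 hM'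
        · exact hM c hc h.1
  let q := QuotientGroup.mk' M.toSubgroup
  have : Finite (B ⧸ M.toSubgroup) := Subgroup.finite_quotient_of_finiteIndex
  let ψ : (⊥ : Subgroup (B ⧸ M.toSubgroup)) ≃* (⊥ : Subgroup (B ⧸ M.toSubgroup)) := MulEquiv.refl _
  let Φ : HNNExtension B ⊥ ⊥ φ →* HNNExtension (B ⧸ M.toSubgroup) ⊥ ⊥ ψ :=
    HNNExtension.lift (of.comp q) t fun a => by
      rw [Subgroup.mem_bot.1 a.2, Subgroup.mem_bot.1 (φ a).2, map_one, mul_one, one_mul]
  have hb : ∀ (u : ℤˣ) {K : Type} [Group K], toSubgroup (⊥ : Subgroup K) ⊥ u = ⊥ := by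
    intro u K _
    rcases Int.units_eq_one_or u with rfl | rfl <;> rfl
  let w' : ReducedWord (B ⧸ M.toSubgroup) ⊥ ⊥ :=
    { head := q w.head
      toList := w.toList.map fun x => (x.1, q x.2)
      chain := by
        rw [List.isChain_map]
        refine (List.IsChain.iff_mem.1 w.chain).imp fun a b h h1 => h.2.2 ?_
        rw [hb] at h1 ⊢
        exact hM _ (List.mem_cons_of_mem _ (List.mem_map_of_mem h.1))
          ((QuotientGroup.eq_one_iff _).1 h1) }
  have hw : Φ (w.prod φ) = w'.prod ψ := by
    simp [ReducedWord.prod, w', Φ, map_list_prod, Function.comp_def]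
  have hne : Φ (w.prod φ) ≠ 1 := fun h => hg (by
    have h1 := ReducedWord.toList_eq_nil_of_mem_of_range ψ w' (by rw [← hw, h]; exact one_mem _)
    have h2 : w.toList = [] := List.map_eq_nil_iff.1 h1
    rw [hw, ReducedWord.prod, h1] at h
    have h3 : q w.head = 1 := of_injective ψ (by simpa using h)
    rw [ReducedWord.prod, h2, hM _ List.mem_cons_self ((QuotientGroup.eq_one_iff _).1 h3)]
    simp)
  obtain ⟨H, _, _, f, hf⟩ := free_sep_finite ψ _ hne
  exact ⟨H, inferInstance, inferInstance, f.comp Φ, hf⟩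

theorem int_residuallyFinite : Group.ResiduallyFinite (Multiplicative ℤ) := by
  refine Group.residuallyFinite_of_forall_exists_finite_monoidHom.{0} fun g hg => ?_
  refine ⟨Multiplicative (ZMod (g.toAdd.natAbs + 1)), inferInstance, inferInstance,
    (Int.castAddHom (ZMod (g.toAdd.natAbs + 1))).toMultiplicative, fun h => hg ?_⟩
  have h1 : ((g.toAdd : ℤ) : ZMod (g.toAdd.natAbs + 1)) = 0 := h
  rw [ZMod.intCast_zmod_eq_zero_iff_dvd] at h1
  exact toAdd_eq_zero.1 (Int.eq_zero_of_dvd_of_natAbs_lt_natAbs h1 (by omega))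

end Pool.Agent.Lib.MP_570070_gt
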