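import Pool.Agent.Lib.MP_570070_gt.Level

/-! The spectral gap in the infinite group. -/

namespace Pool.Agent.Lib.MP_570070_gt

open MonoidAlgebra Pool.Agent.Lib.MP_75c153_gt MeasureTheory Polynomial

variable {G : Type} [Group G]

/-- The scalar product on the real group ring. -/
noncomputable def ip (a b : MonoidAlgebra ℝ G) : ℝ :=
  ∑ g ∈ a.coeff.support, a.coeff g * b.coeff g

omit [Group G] in
theorem ip_eq (a b : MonoidAlgebra ℝ G) {s : Finset G} (h : a.coeff.support ⊆ s) :
    ip a b = ∑ g ∈ s, a.coeff g * b.coeff g :=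
  Finset.sum_subset h fun g _ hg => by rw [Finsupp.notMem_support_iff.1 hg, zero_mul]

omit [Group G] in
theorem ip_comm (a b : MonoidAlgebra ℝ G) : ip a b = ip b a := by
  classical
  rw [ip_eq a b (Finset.subset_union_left (s₂ := b.coeff.support)),
    ip_eq b a (Finset.subset_union_right (s₁ := a.coeff.support))]
  simp only [mul_comm]

theorem ip_add (a b c : MonoidAlgebra ℝ G) : ip a (b + c) = ip a b + ip a c := by
  simp [ip, mul_add, Finset.sum_add_distrib]

theorem ip_sub (a b c : MonoidAlgebra ℝ G) : ip a (b - c) = ip a b - ip a c := by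
  simp [ip, mul_sub, Finset.sum_sub_distrib]

theorem ip_smul (a b : MonoidAlgebra ℝ G) (c : ℝ) : ip a (c • b) = c * ip a b := by
  simp [ip, Finset.mul_sum, mul_left_comm]

omit [Group G] in
theorem ip_self_nonneg (a : MonoidAlgebra ℝ G) : 0 ≤ ip a a :=
  Finset.sum_nonneg fun _ _ => mul_self_nonneg _

omit [Group G] in
theorem ip_single (g : G) (c : ℝ) (b : MonoidAlgebra ℝ G) : ip (single g c) b = c * b.coeff g := by
  rw [ip_eq _ _ (s := {g}) (by simpa using Finsupp.support_single_subset)]
  simp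

theorem ip_sq (a b : MonoidAlgebra ℝ G) (c : ℝ) :
    ip (a + c • b) (a + c • b) = ip a a + 2 * c * ip a b + c ^ 2 * ip b b := by
  rw [ip_add, ip_smul, ip_comm _ a, ip_comm _ b, ip_add, ip_add, ip_smul, ip_smul, ip_comm b a]
  ring

theorem ip_single_mul (g : G) (c : ℝ) (a b : MonoidAlgebra ℝ G) :
    ip (single g c * a) b = ip a (single g⁻¹ c * b) := by
  induction a using MonoidAlgebra.induction_linear with
  | zero => simp [ip]
  | add u v hu hv => rw [mul_add, ip_comm, ip_add, ip_comm b, ip_comm b, hu, hv, ip_comm (u + v),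
      ip_add, ip_comm u, ip_comm v]
  | single h d =>
    rw [single_mul_single, ip_single, ip_single, coeff_single_mul_apply, inv_inv]
    ring

/-- Extension of scalars. -/
noncomputable def toR : MonoidAlgebra ℤ G →+* MonoidAlgebra ℝ G := mapRingHom G (Int.castRingHom ℝ)

theorem toR_single (g : G) (c : ℤ) : toR (single g c) = single g (c : ℝ) := by
  simp [toR]

theorem ip_adj (u : MonoidAlgebra ℤ G) (a b : MonoidAlgebra ℝ G) :
    ip (toR u * a) b = ip a (toR (bar u) * b) := by
  induction u using MonoidAlgebra.induction_linear with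
  | zero => simp [ip]
  | add u v hu hv => rw [bar_add, map_add, map_add, add_mul, add_mul, ip_add, ip_comm, ip_add,
      ip_comm b, ip_comm b, hu, hv]
  | single h d => rw [bar_single, toR_single, toR_single, ip_single_mul]

theorem bar_bar (u : MonoidAlgebra ℤ G) : bar (bar u) = u := by
  induction u using MonoidAlgebra.induction_linear with
  | zero => simp
  | add u v hu hv => rw [bar_add, bar_add, hu, hv]
  | single h d => simp

theorem ip_aeval {T : MonoidAlgebra ℝ G} (hT : ∀ a b, ip (T * a) b = ip a (T * b)) (p : ℝ[X])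
    (a b : MonoidAlgebra ℝ G) : ip (aeval T p * a) b = ip a (aeval T p * b) := by
  have h : ∀ (k : ℕ) a b, ip (T ^ k * a) b = ip a (T ^ k * b) := by
    intro k
    induction k with
    | zero => simp
    | succ k ih =>
      intro a b
      rw [pow_succ', mul_assoc, hT, ih, ← mul_assoc, ← pow_succ, pow_succ']
  induction p using Polynomial.induction_on' with
  | add p q hp hq => rw [map_add, add_mul, add_mul, ip_add, ip_comm, ip_add, ip_comm b, ip_comm b,
      hp, hq]
  | monomial k c =>
    rw [aeval_monomial, mul_assoc, mul_assoc, ← Algebra.smul_def, ← Algebra.smul_def, ip_smul,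
      ip_comm, ip_smul, ip_comm, h]

open Classical in
theorem ip_pong {y : G} {Y : Set G} (hY : ∀ g, g ∉ Y → y * g ∈ Y) (a : MonoidAlgebra ℝ G) :
    ip a (single y⁻¹ 1 * a) ≤
      ∑ g ∈ a.coeff.support, (if g ∈ Y then 3 / 2 else 2 / 3) * a.coeff g ^ 2 := by
  set f : G → ℝ := fun g => (if g ∈ Y then 3 / 2 else 2 / 3) * a.coeff g ^ 2 with hf
  have h1 : ∑ g ∈ a.coeff.support, f (y * g) ≤ ∑ g ∈ a.coeff.support, f g := by
    rw [← Finset.sum_image (s := a.coeff.support) (g := fun g => y * g) (f := f)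
      fun _ _ _ _ h => mul_left_cancel h]
    have h0 : ∀ g, 0 ≤ f g := fun g => mul_nonneg (by split_ifs <;> norm_num) (sq_nonneg _)
    refine (Finset.sum_le_sum_of_subset_of_nonneg (Finset.subset_union_left
      (s₂ := a.coeff.support)) fun g _ _ => h0 g).trans_eq (Finset.sum_subset
        Finset.subset_union_right fun g _ hg => ?_).symm
    simp [hf, Finsupp.notMem_support_iff.1 hg]
  have h2 : ∀ g, 2 * (a.coeff g * a.coeff (y * g)) ≤ f g + f (y * g) := by
    intro g
    have := hY g
    simp only [hf]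
    split_ifs with h3 h4 h4
    · nlinarith [sq_nonneg (a.coeff g - a.coeff (y * g)), sq_nonneg (a.coeff g),
        sq_nonneg (a.coeff (y * g))]
    · nlinarith [sq_nonneg (3 * a.coeff g - 2 * a.coeff (y * g))]
    · nlinarith [sq_nonneg (2 * a.coeff g - 3 * a.coeff (y * g))]
    · exact absurd (this h3) h4
  have h3 := Finset.sum_le_sum fun g (_ : g ∈ a.coeff.support) => h2 g
  rw [Finset.sum_add_distrib, ← Finset.mul_sum] at h3
  simp only [ip, coeff_single_mul_apply, inv_inv, one_mul]
  linarith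

theorem gap {x : G} {ys : Fin 3 → G} (Y : Fin 3 → Set G) (hY : ∀ j g, g ∉ Y j → ys j * g ∈ Y j)
    (hd : ∀ i j g, g ∈ Y i → g ∈ Y j → i = j) (a : MonoidAlgebra ℝ G) :
    4 * ip a a ≤ ip (toR (bar (elt x ys)) * a) (toR (bar (elt x ys)) * a) := by
  classical
  set z := single x⁻¹ (1 : ℝ) * a with hz
  set w := ∑ j, (z - single (ys j)⁻¹ 1 * z) with hw
  have e : toR (bar (elt x ys)) * a = a + (18 : ℝ) • w := by
    have h18 : bar (18 : MonoidAlgebra ℤ G) = 18 := by
      rw [← Nat.cast_ofNat (n := 18), natCast_def, bar_single, inv_one]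
    have hs : ∀ j, bar (1 - single (ys j) 1) = 1 - single (ys j)⁻¹ 1 := fun j => by
      have := map_sub (barHom (G := G)) 1 (single (ys j) 1)
      change bar _ = bar _ - bar _ at this
      rw [this, bar_one, bar_single]
    rw [elt, bar_add, bar_one, bar_mul, bar_mul, bar_sum, bar_single, h18]
    simp only [hs, map_add, map_one, map_mul, map_sum, map_sub, toR_single, map_ofNat,
      Int.cast_one]
    rw [add_mul, one_mul, (Commute.ofNat_right _ 18).eq, mul_assoc, mul_assoc, ← hz,
      Finset.sum_mul, ← Nat.cast_ofNat (n := 18), ← nsmul_eq_mul, ← Nat.cast_smul_eq_nsmul ℝ]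
    simp only [sub_mul, one_mul]
    rfl
  have h1 : ip z z = ip a a := by
    rw [hz, ip_single_mul, ← mul_assoc, single_mul_single]
    simp [← one_def]
  have h2 : ip z z / 6 ≤ ip z w := by
    have h3 : ∀ g, ∑ j, (if g ∈ Y j then 3 / 2 else 2 / 3 : ℝ) ≤ 17 / 6 := by
      intro g
      have a1 : g ∈ Y 0 → g ∉ Y 1 := fun h1 h2 => absurd (hd 0 1 g h1 h2) (by decide)
      have a2 : g ∈ Y 0 → g ∉ Y 2 := fun h1 h2 => absurd (hd 0 2 g h1 h2) (by decide)
      have a3 : g ∈ Y 1 → g ∉ Y 2 := fun h1 h2 => absurd (hd 1 2 g h1 h2) (by decide)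
      rw [Fin.sum_univ_three]
      split_ifs <;> first | (norm_num; done) | tauto
    have h4 := Finset.sum_le_sum fun j (_ : j ∈ Finset.univ) => ip_pong (hY j) z
    rw [Finset.sum_comm] at h4
    have h5 : ∑ g ∈ z.coeff.support, ∑ j, (if g ∈ Y j then 3 / 2 else 2 / 3 : ℝ) *
        z.coeff g ^ 2 ≤ 17 / 6 * ip z z := by
      rw [ip, Finset.mul_sum]
      refine Finset.sum_le_sum fun g _ => ?_
      rw [← Finset.sum_mul, ← sq]
      exact mul_le_mul_of_nonneg_right (h3 g) (sq_nonneg _)
    rw [hw]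
    simp only [Fin.sum_univ_three, ip_add, ip_sub] at h4 h5 ⊢
    linarith
  have h6 := ip_self_nonneg (z + (-6 : ℝ) • w)
  have h7 := ip_self_nonneg (a + (6 : ℝ) • w)
  rw [ip_sq] at h6 h7
  rw [e, ip_sq]
  linarith

theorem null_Iio {u : MonoidAlgebra ℤ G}
    (h : ∀ a, 4 * ip a a ≤ ip (toR (bar u) * a) (toR (bar u) * a)) {μ : Measure ℝ}
    [IsFiniteMeasure μ] {R : ℝ} (hR : μ (Set.Icc (-R) R)ᶜ = 0)
    (hm : ∀ k : ℕ, ∫ s, s ^ k ∂μ = (((u * bar u) ^ k).coeff 1 : ℝ)) : μ (Set.Iio 4) = 0 := by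
  set T := toR (u * bar u) with hT
  have hs : ∀ a b, ip (T * a) b = ip a (T * b) := fun a b => by
    rw [hT, ip_adj, bar_mul, bar_bar]
  have hp : ∀ p : ℝ[X], ∫ s, p.eval s ∂μ = ip 1 (aeval T p) := fun p => by
    rw [integral_poly hR, aeval_eq_sum_range, one_def, ip_single, one_mul]
    simp only [hm, hT, ← map_pow, MonoidAlgebra.coeff_sum, MonoidAlgebra.coeff_smul,
      Finsupp.coe_finsetSum,
      Finset.sum_apply, Finsupp.smul_apply, smul_eq_mul, toR, coeff_mapRingHom, eq_intCast]
  have hq : ∀ p : ℝ[X], 0 ≤ ∫ s, p.eval s * ((s - 4) * p.eval s) ∂μ := fun p => by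
    have h1 := hp (p * ((X - C 4) * p))
    simp only [eval_mul, eval_sub, eval_X, eval_C] at h1
    have h2 := h (aeval T p)
    rw [ip_comm, ← ip_adj, ← mul_assoc, ← map_mul, ← hT, ip_comm (T * _)] at h2
    rw [h1, map_mul, ← ip_aeval hs, mul_one, map_mul, map_sub, aeval_X, aeval_C, sub_mul, ip_sub,
      ← Algebra.smul_def, ip_smul]
    linarith
  have hc : ∀ c : ℝ, c < 4 → μ (Set.Iic c) = 0 := by
    intro c hc
    set q := |R| + 5 with hq'
    have hq0 := abs_nonneg R
    have key : ∀ k : ℕ, (4 - c) * μ.real (Set.Iic c) * ((q - c) / (q - 4)) ^ (2 * k) ≤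
        q * μ.real Set.univ := by
      intro k
      have h1 := hq ((C q - X) ^ k)
      simp only [eval_pow, eval_sub, eval_X, eval_C] at h1
      have h2 : ∫ s, (q - s) ^ k * ((s - 4) * (q - s) ^ k) ∂μ ≤
          ∫ s, (q * (q - 4) ^ (2 * k) -
            (Set.Iic c).indicator (fun _ => (4 - c) * (q - c) ^ (2 * k)) s) ∂μ := by
        refine integral_mono_ae (integrable_of_cpt hR (by fun_prop))
          ((integrable_const _).sub ((integrable_const _).indicator measurableSet_Iic)) ?_
        filter_upwards [mem_ae_iff.2 hR] with s hs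
        have h3 : s ≤ |R| := hs.2.trans (le_abs_self R)
        have h4 : 0 ≤ q * (q - 4) ^ (2 * k) := mul_nonneg (by linarith) (pow_nonneg (by linarith) _)
        have e : (q - s) ^ k * ((s - 4) * (q - s) ^ k) = (s - 4) * (q - s) ^ (2 * k) := by ring
        rw [e]
        by_cases h5 : s ≤ c
        · rw [Set.indicator_of_mem (by exact h5)]
          have h6 : (q - c) ^ (2 * k) ≤ (q - s) ^ (2 * k) :=
            pow_le_pow_left₀ (by linarith) (by linarith) _
          have h7 : 0 ≤ (q - c) ^ (2 * k) := pow_nonneg (by linarith) _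
          nlinarith
        · rw [Set.indicator_of_notMem (by exact h5), sub_zero]
          rcases le_total s 4 with h6 | h6
          · have : 0 ≤ (q - s) ^ (2 * k) := pow_nonneg (by linarith) _
            nlinarith
          · exact mul_le_mul (by linarith) (pow_le_pow_left₀ (by linarith) (by linarith) _)
              (pow_nonneg (by linarith) _) (by linarith)
      rw [integral_sub (integrable_const _) ((integrable_const _).indicator measurableSet_Iic),
        integral_indicator measurableSet_Iic] at h2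
      simp only [integral_const, smul_eq_mul, measureReal_restrict_apply MeasurableSet.univ,
        Set.univ_inter] at h2
      rw [div_pow, ← mul_div_assoc, div_le_iff₀ (pow_pos (by linarith) _)]
      linarith
    rw [← measureReal_eq_zero_iff]
    by_contra hne
    have h1 : 0 < (4 - c) * μ.real (Set.Iic c) :=
      mul_pos (by linarith) (lt_of_le_of_ne measureReal_nonneg (Ne.symm hne))
    have h2 : 1 < ((q - c) / (q - 4)) ^ 2 :=
      one_lt_pow₀ ((one_lt_div (by linarith)).2 (by linarith)) two_ne_zero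
    obtain ⟨k, hk⟩ := pow_unbounded_of_one_lt
      (q * μ.real Set.univ / ((4 - c) * μ.real (Set.Iic c))) h2
    rw [div_lt_iff₀ h1, ← pow_mul] at hk
    linarith [key k]
  refine measure_mono_null (t := ⋃ n : ℕ, Set.Iic (4 - 1 / ((n : ℝ) + 1))) (fun s hs => ?_)
    (measure_iUnion_null fun n => hc _ (by have := Nat.one_div_pos_of_nat (α := ℝ) (n := n); linarith))
  obtain ⟨n, hn⟩ := exists_nat_one_div_lt (sub_pos.2 (show s < 4 from hs))
  exact Set.mem_iUnion.2 ⟨n, by simp only [Set.mem_Iic]; linarith⟩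

open HNNExtension NormalWord in
/-- Ping-pong sets in the HNN extension. -/
theorem exists_pong {B : Type} [Group B] {A A' : Subgroup B} (φ : A ≃* A') {y : B} (hy : y ∉ A)
    (hy' : y ∉ A') : ∃ Y : Fin 3 → Set (HNNExtension B A A' φ),
      (∀ j g, g ∉ Y j → cj φ y j * g ∈ Y j) ∧ ∀ i j g, g ∈ Y i → g ∈ Y j → i = j := by
  obtain ⟨d⟩ := TransversalPair.nonempty B A A'
  have h1 : ∀ w : NormalWord d, ¬ Cancels 1 w → Cancels (-1) ((t : HNNExtension B A A' φ) • w) ∧
      ¬ Cancels 1 ((t : HNNExtension B A A' φ) • w) := by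
    intro w hw
    rw [t_smul_eq_unitsSMul, unitsSMul, dif_neg hw]
    exact ⟨⟨(unitsSMulGroup φ d 1 w.head).1.2, by simp⟩, fun h => by simpa using h.2⟩
  let w : HNNExtension B A A' φ → NormalWord d := fun g => g • NormalWord.empty
  let Z : HNNExtension B A A' φ → Prop := fun g => ∃ u, Cancels u (w g)
  have h2 : ∀ g, ¬ Z g → Z (t * g) ∧ Z (t * (t * g)) := by
    intro g hg
    have h3 := h1 (w g) fun h => hg ⟨1, h⟩
    simp only [Z, w, mul_smul]
    exact ⟨⟨_, h3.1⟩, ⟨_, (h1 _ h3.2).1⟩⟩
  refine ⟨fun j => {g | ¬ Z ((t ^ (j : ℕ))⁻¹ * g)}, fun j g hg => ?_, ?_⟩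
  · simp only [Set.mem_ofPred_eq, not_not] at hg ⊢
    rw [cj, mul_assoc, mul_assoc, inv_mul_cancel_left]
    obtain ⟨u, hu, hu'⟩ := hg
    rintro ⟨v, hv, hv'⟩
    simp only [w] at hu hu' hv hv'
    rw [mul_smul, of_smul_eq_smul] at hv hv'
    rw [group_smul_toList, hu', Option.some_inj, neg_inj] at hv'
    rw [group_smul_head, ← hv', mul_mem_cancel_right hu] at hv
    rcases Int.units_eq_one_or u with rfl | rfl
    · exact hy hv
    · exact hy' hv
  · have a1 : ∀ g, ¬ Z ((t ^ 1)⁻¹ * g) → Z ((t ^ 0)⁻¹ * g) := fun g hg => by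
      simpa using (h2 _ hg).1
    have a2 : ∀ g, ¬ Z ((t ^ 2)⁻¹ * g) → Z ((t ^ 1)⁻¹ * g) ∧ Z ((t ^ 0)⁻¹ * g) := fun g hg => by
      simpa [sq, mul_assoc] using h2 _ hg
    intro i j g hi hj
    fin_cases i <;> fin_cases j <;>
      first
      | rfl
      | exact absurd (a1 g hi) hj
      | exact absurd (a1 g hj) hi
      | exact absurd (a2 g hi).1 hj
      | exact absurd (a2 g hi).2 hj
      | exact absurd (a2 g hj).1 hi
      | exact absurd (a2 g hj).2 hi

end Pool.Agent.Lib.MP_570070_gt
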