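import Pool.Agent.Lib.MP_570070_gt.Defs
import Pool.Agent.Lib.MP_570070_gt.Gap

/-! Assembly. -/

namespace Pool.Agent.Lib.MP_570070_gt

open MonoidAlgebra Pool.Agent.Lib.MP_75c153_gt MeasureTheory Matrix Filter

variable {G : Type} [Group G]

theorem trace_rep_reg {H : Type} [Group H] [Fintype H] [DecidableEq H] (π : G →* H)
    (u : MonoidAlgebra ℤ G) : (rep ((reg H).comp π) u).trace =
      Fintype.card H * ((mapDomain (QuotientGroup.mk' π.ker) u).coeff 1 : ℝ) := by
  classical
  induction u using MonoidAlgebra.induction_linear with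
  | zero => simp
  | add u v hu hv => simp [mapDomain_add, hu, hv, mul_add]
  | single g c =>
    rw [rep_single, trace_smul, MonoidHom.comp_apply, reg_trace, mapDomain_single, coeff_single,
      Finsupp.single_apply]
    simp only [QuotientGroup.mk'_apply, QuotientGroup.eq_one_iff, MonoidHom.mem_ker]
    split_ifs <;> simp [mul_comm]

theorem eventually_coeff_eq (N : ℕ → Subgroup G) [∀ n, (N n).Normal] (hanti : Antitone N)
    (hinf : ⨅ n, N n = ⊥) (u : MonoidAlgebra ℤ G) :
    ∀ᶠ n in atTop, (mapDomain (QuotientGroup.mk' (N n)) u).coeff 1 = u.coeff 1 := by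
  classical
  induction u using MonoidAlgebra.induction_linear with
  | zero => simp
  | add u v hu hv =>
    filter_upwards [hu, hv] with n h1 h2
    rw [mapDomain_add, coeff_add, coeff_add, Finsupp.add_apply, Finsupp.add_apply, h1, h2]
  | single g c =>
    by_cases hg : g = 1
    · simp [hg]
    · obtain ⟨m, hm⟩ := not_forall.1 fun h : ∀ n, g ∈ N n =>
        hg (Subgroup.mem_bot.1 (hinf ▸ Subgroup.mem_iInf.2 h))
      filter_upwards [eventually_ge_atTop m] with n hn
      have : g ∉ N n := fun h => hm (hanti hn h)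
      simp [hg, this]

theorem mapDomain_pow {Q : Type} [Group Q] (f : G →* Q) (a : MonoidAlgebra ℤ G) (k : ℕ) :
    (mapDomain f a * invol (mapDomain f a)) ^ k = mapDomain f ((a * bar a) ^ k) := by
  have h : invol (mapDomain f a) = mapDomain f (bar a) := by
    induction a using MonoidAlgebra.induction_linear with
    | zero => simp [invol]
    | add u v hu hv =>
      rw [bar_add, mapDomain_add, mapDomain_add, ← hu, ← hv]
      exact mapDomain_add _ _ _
    | single g c => simp [invol]
  rw [h, ← mapDomain_mul]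
  exact (map_pow (mapDomainRingHom ℤ f) _ _).symm

theorem isProb_of_moment {μ : Measure ℝ} [IsFiniteMeasure μ] (h : ∫ s, s ^ 0 ∂μ = 1) :
    IsProbabilityMeasure μ := by
  simp only [pow_zero, integral_const, smul_eq_mul, mul_one] at h
  exact ⟨(ENNReal.toReal_eq_one_iff _).1 h⟩

/-- The spectrum of `a a*` in the regular representation of a finite group. -/
theorem exists_eigs {H : Type} [Group H] [Fintype H] [DecidableEq H] (π : G →* H)
    (a : MonoidAlgebra ℤ G) : ∃ hM : (rep ((reg H).comp π) a *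
      (rep ((reg H).comp π) a)ᵀ).IsHermitian, (∀ s ∈ eigs hM, 0 ≤ s ∧ s ≤ l1 (a * bar a)) ∧
      0 ≤ ((eigs hM).map Real.log).sum ∧
      ∀ k : ℕ, 1 / (Fintype.card H : ℝ) * ((eigs hM).map fun s => s ^ k).sum =
        ((mapDomain (QuotientGroup.mk' π.ker) ((a * bar a) ^ k)).coeff 1 : ℝ) := by
  set ρ := (reg H).comp π with hρ
  have hρ' : ∀ g, ρ g⁻¹ = (ρ g)ᴴ := fun g => by
    rw [conjTranspose_eq_transpose_of_trivial, hρ, MonoidHom.comp_apply, map_inv, reg_inv]
    rfl
  have hp : (rep ρ a * (rep ρ a)ᵀ).PosSemidef := by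
    rw [← conjTranspose_eq_transpose_of_trivial]
    exact posSemidef_self_mul_conjTranspose _
  have hm : rep ρ a * (rep ρ a)ᵀ = rep ρ (a * bar a) := by
    rw [map_mul, rep_bar ρ hρ', conjTranspose_eq_transpose_of_trivial]
  refine ⟨hp.isHermitian, fun s hs => ⟨eigs_nonneg hp s hs,
    (le_abs_self s).trans (eigs_abs_le _ (fun i => ?_) s hs)⟩,
    sum_log_eigs_nonneg hp fun i j => ?_, fun k => ?_⟩
  · rw [hm]
    refine rep_rows ρ (fun g i => ?_) _ i
    simp only [hρ, MonoidHom.comp_apply, reg, MonoidHom.coe_mk, OneHom.coe_mk, Matrix.of_apply,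
      apply_ite norm, norm_one, norm_zero, Finset.sum_ite_eq, Finset.mem_univ, if_true, le_refl]
  · refine ⟨∑ g ∈ (a * bar a).coeff.support,
      (a * bar a).coeff g * if i * π g = j then 1 else 0, ?_⟩
    rw [hm, rep_apply]
    simp [hρ, reg, Matrix.sum_apply]
  · have h := trace_pow_eq hp.isHermitian k
    simp only [RCLike.ofReal_real_eq_id, id] at h
    have hc : (Fintype.card H : ℝ) ≠ 0 := by exact_mod_cast Fintype.card_ne_zero
    rw [← h, hm, ← map_pow, hρ, trace_rep_reg]
    field_simp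

theorem Stage.logDet_le {x : G} {ys : Fin 3 → G} (S : Stage x ys) {δ : ℝ}
    (hδ : S.tot < (1 + δ) * (Fintype.card S.ι : ℝ) ^ 2) :
    ∃ w, IsLogDet (mapDomain (QuotientGroup.mk' S.π.ker) (elt x ys)) w ∧ 0 ≤ w ∧
      w ≤ l1 (elt x ys * bar (elt x ys) * (elt x ys * bar (elt x ys)) -
        elt x ys * bar (elt x ys)) * δ / 2 := by
  classical
  let : Fintype S.H := Fintype.ofFinite _
  obtain ⟨hM, h1, h2, h3⟩ := exists_eigs S.π (elt x ys)
  have hc : (0 : ℝ) < Fintype.card S.H := by exact_mod_cast Fintype.card_pos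
  have hw : (0 : ℝ) ≤ 1 / Fintype.card S.H := by positivity
  have hn := famMeasure_null (1 / Fintype.card S.H) (eigs hM) measurableSet_Icc h1
  have hmom : ∀ k : ℕ, ∫ s, s ^ k ∂(famMeasure (1 / Fintype.card S.H) (eigs hM)) =
      (((mapDomain (QuotientGroup.mk' S.π.ker) (elt x ys) *
        invol (mapDomain (QuotientGroup.mk' S.π.ker) (elt x ys))) ^ k).coeff 1 : ℝ) :=
    fun k => by rw [integral_famMeasure hw, h3, mapDomain_pow]
  have hint : ∫ s in Set.Ioi 0, Real.log s ∂(famMeasure (1 / Fintype.card S.H) (eigs hM)) =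
      1 / Fintype.card S.H * ((eigs hM).map Real.log).sum := by
    rw [← integral_famMeasure hw]
    refine setIntegral_eq_integral_of_ae_compl_eq_zero ?_
    filter_upwards [mem_ae_iff.2 hn] with s hs hs'
    rw [le_antisymm (not_lt.1 hs') hs.1, Real.log_zero]
  refine ⟨_, ⟨famMeasure (1 / Fintype.card S.H) (eigs hM),
    ⟨isProb_of_moment (by rw [hmom]; simp [one_def]), ⟨_, hn⟩, hmom⟩,
    ((integral_dirac_sum _ _).1.smul_measure_nnreal).integrableOn, rfl⟩, ?_, ?_⟩
  · rw [hint]
    positivity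
  · have h4 := mul_le_mul_of_nonneg_left (S.sum_log_le hδ hM) hw
    rw [hint]
    refine div_le_div_of_nonneg_right (h4.trans_eq ?_) zero_le_two
    field_simp

theorem exists_logDet {x : G} {ys : Fin 3 → G} (S : ℕ → Stage x ys)
    (hanti : Antitone fun n => (S n).π.ker) (hinf : ⨅ n, (S n).π.ker = ⊥)
    {a : MonoidAlgebra ℤ G} (h : ∀ z, 4 * ip z z ≤ ip (toR (bar a) * z) (toR (bar a) * z)) :
    ∃ v, IsLogDet a v ∧ Real.log 2 ≤ v := by
  classical
  let : ∀ n, Fintype (S n).H := fun n => Fintype.ofFinite _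
  choose hM h1 _ h3 using fun n => exists_eigs (S n).π a
  have hF : Fam (fun k => (((a * bar a) ^ k).coeff 1 : ℝ)) (l1 (a * bar a))
      (fun n => 1 / (Fintype.card (S n).H : ℝ)) (fun n => eigs (hM n)) :=
    ⟨fun n => by positivity, h1, fun k => by
      filter_upwards [eventually_coeff_eq (fun n => (S n).π.ker) hanti hinf ((a * bar a) ^ k)]
        with n hn
      rw [h3, hn]⟩
  obtain ⟨μ, hfin, hsupp, hm⟩ := hF.exists_measure
  have hprob : IsProbabilityMeasure μ := isProb_of_moment (by rw [hm]; simp [one_def])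
  have hR : μ (Set.Icc (-|l1 (a * bar a)|) |l1 (a * bar a)|)ᶜ = 0 :=
    measure_mono_null (Set.compl_subset_compl.2 (Set.Icc_subset_Icc (by simp) le_rfl)) hsupp
  have h4 : ∀ᵐ s ∂μ, 4 ≤ s := by
    filter_upwards [measure_eq_zero_iff_ae_notMem.1 (null_Iio h hR hm)] with s hs
    exact not_lt.1 hs
  have hi : Integrable Real.log μ := by
    have hc : Continuous fun s : ℝ => Real.log (max s 4) :=
      Continuous.log (by fun_prop) fun s => (lt_of_lt_of_le (by norm_num) (le_max_right s 4)).ne'
    refine (integrable_of_cpt hR hc).congr ?_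
    filter_upwards [h4] with s hs
    rw [max_eq_left hs]
  refine ⟨_, ⟨μ, ⟨hprob, ⟨_, hsupp⟩, hm⟩, hi.integrableOn, rfl⟩, ?_⟩
  rw [setIntegral_eq_integral_of_ae_compl_eq_zero (by
    filter_upwards [h4] with s hs hs'
    exact absurd (lt_of_lt_of_le (by norm_num) hs) hs')]
  have h5 := integral_mono_ae (integrable_const (Real.log 4)) hi (by
    filter_upwards [h4] with s hs
    exact Real.log_le_log (by norm_num) hs)
  have h6 : Real.log 4 = 2 * Real.log 2 := by
    rw [show (4 : ℝ) = 2 ^ 2 by norm_num, Real.log_pow]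
    norm_num
  simp only [integral_const, probReal_univ, smul_eq_mul, one_mul] at h5
  linarith

end Pool.Agent.Lib.MP_570070_gt
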