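import Pool.Agent.Lib.MP_570070_gt.Stage

/-! Wreath product quotients of the HNN extension and the chain. -/

namespace Pool.Agent.Lib.MP_570070_gt

open HNNExtension Multiplicative

variable {B : Type} [Group B] {A A' : Subgroup B} {φ : A ≃* A'} {P : Type} [Group P]

/-- The residue `q` is within distance `R` of the residue `u`. -/
def Near {L : ℕ} (R : ℕ) (u q : ZMod L) : Prop := ∃ n : ℤ, |n| ≤ R ∧ q = u + n

theorem Near.shift {L R : ℕ} {u q : ZMod L} (c : ZMod L) : Near R (u + c) (q + c) ↔ Near R u q := by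
  constructor
  · rintro ⟨n, h1, h2⟩
    exact ⟨n, h1, by linear_combination h2⟩
  · rintro ⟨n, h1, h2⟩
    exact ⟨n, h1, by linear_combination h2⟩

open Classical in
/-- The homomorphism to the wreath product: the stable letter shifts, the base group acts through
`ρ` in a window and through `ρ ∘ r` elsewhere. -/
noncomputable def lev (r : B →* HNNExtension B A A' φ) (hr : ∀ a, a ∈ A ∨ a ∈ A' → r a = of a)
    (ρ : HNNExtension B A A' φ →* P) (L R : ℕ) :
    HNNExtension B A A' φ →* RegularWreathProduct P (Multiplicative (ZMod L)) :=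
  HNNExtension.lift
    { toFun := fun b => ⟨fun q => if Near R 0 q.toAdd then ρ (of b) else ρ (r b), 1⟩
      map_one' := by ext q <;> simp
      map_mul' := fun a b => by
        ext q
        · simp only [RegularWreathProduct.mul_left, Pi.mul_apply, inv_one, one_mul, map_mul]
          split_ifs <;> rfl
        · simp }
    ⟨fun _ => ρ t, ofAdd 1⟩ (fun c => by
      ext q
      · simp only [RegularWreathProduct.mul_left, MonoidHom.coe_mk, OneHom.coe_mk, Pi.mul_apply,
          hr _ (Or.inl c.2), hr _ (Or.inr (φ c).2), ite_self]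
        rw [← map_mul, ← map_mul, t_mul_of]
      · simp)

variable (r : B →* HNNExtension B A A' φ) (hr : ∀ a, a ∈ A ∨ a ∈ A' → r a = of a)
  (ρ : HNNExtension B A A' φ →* P)

theorem lev_t (L R : ℕ) : lev r hr ρ L R t = ⟨fun _ => ρ t, ofAdd 1⟩ := by
  simp [lev]

open Classical in
theorem lev_of (L R : ℕ) (b : B) : lev r hr ρ L R (of b) =
    ⟨fun q => if Near R 0 q.toAdd then ρ (of b) else ρ (r b), 1⟩ := by
  simp [lev]

theorem lev_sees (g : HNNExtension B A A' φ) : ∃ (d : ℤ) (k : ℕ), ∀ L R : ℕ,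
    (lev r hr ρ L R g).right = ofAdd (d : ZMod L) ∧
      ∀ i : ℤ, |i| + k ≤ R → (lev r hr ρ L R g).left (ofAdd (i : ZMod L)) = ρ g := by
  induction g using HNNExtension.induction_on with
  | of b =>
    refine ⟨0, 0, fun L R => ⟨by simp [lev_of], fun i hi => ?_⟩⟩
    rw [lev_of]
    exact if_pos ⟨i, by simpa using hi, by simp⟩
  | t => exact ⟨1, 0, fun L R => ⟨by simp [lev_t], fun i _ => by simp [lev_t]⟩⟩
  | mul a b ha hb =>
    obtain ⟨d, k, ha⟩ := ha
    obtain ⟨e, l, hb⟩ := hb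
    refine ⟨d + e, k + l + d.natAbs, fun L R => ⟨?_, fun i hi => ?_⟩⟩
    · rw [map_mul, RegularWreathProduct.mul_right, (ha L R).1, (hb L R).1, Int.cast_add, ofAdd_add]
    · have h1 : |i - d| ≤ |i| + |d| := abs_sub i d
      push_cast at hi
      have h2 := abs_nonneg d
      rw [map_mul, RegularWreathProduct.mul_left, Pi.mul_apply, (ha L R).1,
        (ha L R).2 i (by omega), map_mul, ← (hb L R).2 (i - d) (by omega)]
      congr 2
      rw [← ofAdd_neg, ← ofAdd_add]
      push_cast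
      rw [neg_add_eq_sub]
  | inv a ha =>
    obtain ⟨d, k, ha⟩ := ha
    refine ⟨-d, k + d.natAbs, fun L R => ⟨?_, fun i hi => ?_⟩⟩
    · rw [map_inv, RegularWreathProduct.inv_right, (ha L R).1, Int.cast_neg, ofAdd_neg]
    · have h1 : |d + i| ≤ |d| + |i| := abs_add_le d i
      push_cast at hi
      rw [map_inv, RegularWreathProduct.inv_left, map_inv, ← (ha L R).2 (d + i) (by omega),
        (ha L R).1]
      simp

/-- The elements of the base group supported in the window around `u`. -/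
def win (P : Type) [Group P] {L : ℕ} (R : ℕ) (u : ZMod L) :
    Subgroup (RegularWreathProduct P (Multiplicative (ZMod L))) where
  carrier := {w | w.right = 1 ∧ ∀ q, ¬ Near R u q.toAdd → w.left q = 1}
  one_mem' := ⟨rfl, fun _ _ => rfl⟩
  mul_mem' := fun {a b} ha hb => ⟨by simp [ha.1, hb.1], fun q hq => by
    simp [ha.1, ha.2 q hq, hb.2 q hq]⟩
  inv_mem' := fun {a} ha => ⟨by simp [ha.1], fun q hq => by simp [ha.1, ha.2 q hq]⟩

theorem conj_mem_win {L R : ℕ} (u : ZMod L) (g h : RegularWreathProduct P (Multiplicative (ZMod L)))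
    (hh : h ∈ win P R u) : g * h * g⁻¹ ∈ win P R (u + g.right.toAdd) := by
  refine ⟨by simp [hh.1], fun q hq => ?_⟩
  have : h.left (g.right⁻¹ * q) = 1 := hh.2 _ fun h1 => hq (by
    have := (Near.shift g.right.toAdd).2 h1
    simpa using this)
  simp [hh.1, this]

theorem conj_mem_win_iff {L R : ℕ} (u : ZMod L)
    (g h : RegularWreathProduct P (Multiplicative (ZMod L))) :
    g * h * g⁻¹ ∈ win P R (u + g.right.toAdd) ↔ h ∈ win P R u := by
  refine ⟨fun h1 => ?_, conj_mem_win u g h⟩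
  have := conj_mem_win _ g⁻¹ _ h1
  simpa [mul_assoc] using this

theorem card_win [Finite P] {L : ℕ} (R : ℕ) (u : ZMod L) :
    Nat.card (win P R u) ≤ Nat.card P ^ (2 * R + 1) := by
  have h := Nat.card_le_card_of_injective
    (fun (w : win P R u) (n : Finset.Icc (-(R : ℤ)) R) => w.1.left (ofAdd (u + (n : ℤ))))
    (fun a b hab => by
      ext q
      · by_cases hq : Near R u q.toAdd
        · obtain ⟨n, h1, h2⟩ := hq
          have := congrFun hab ⟨n, Finset.mem_Icc.2 (abs_le.1 h1)⟩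
          simpa [← h2] using this
        · rw [a.2.2 q hq, b.2.2 q hq]
      · rw [a.2.1, b.2.1])
  rw [Nat.card_fun, Nat.card_eq_fintype_card (α := Finset.Icc (-(R : ℤ)) R), Fintype.card_coe,
    Int.card_Icc] at h
  have e : ((R : ℤ) + 1 - -(R : ℤ)).toNat = 2 * R + 1 := by omega
  rwa [e] at h

theorem win_inf {L R : ℕ} {u v : ZMod L} (h : ¬ Near (2 * R) u v) :
    win P R u ⊓ win P R v = ⊥ := by
  rw [eq_bot_iff]
  rintro w ⟨h1, h2⟩
  rw [Subgroup.mem_bot]
  ext q
  · by_cases hu : Near R u q.toAdd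
    · by_cases hv : Near R v q.toAdd
      · obtain ⟨n, n1, n2⟩ := hu
        obtain ⟨m, m1, m2⟩ := hv
        refine absurd ⟨n - m, ?_, ?_⟩ h
        · have := abs_sub n m
          push_cast
          omega
        · push_cast
          linear_combination n2 - m2
      · exact h2.2 q hv
    · exact h1.2 q hu
  · rw [h1.1]
    rfl

theorem sum_card_win [Finite P] {L : ℕ} [NeZero L] (R : ℕ) (u : ZMod L) :
    ∑ v, (Nat.card ↥(win P R u ⊓ win P R v) : ℝ) ≤
      L + (4 * R + 1) * (Nat.card P : ℝ) ^ (2 * R + 1) := by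
  classical
  have h1 : ∀ v, (Nat.card ↥(win P R u ⊓ win P R v) : ℝ) ≤
      1 + if v ∈ (Finset.Icc (-(2 * R : ℤ)) (2 * R)).image fun n : ℤ => u + n then
        (Nat.card P : ℝ) ^ (2 * R + 1) else 0 := by
    intro v
    split_ifs with hv
    · have h2 := (Subgroup.card_le_of_le (inf_le_left : win P R u ⊓ win P R v ≤ _)).trans
        (card_win R u)
      have h3 : (Nat.card ↥(win P R u ⊓ win P R v) : ℝ) ≤ (Nat.card P : ℝ) ^ (2 * R + 1) := by
        exact_mod_cast h2
      linarith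
    · rw [win_inf fun ⟨n, n1, n2⟩ => hv (Finset.mem_image.2
        ⟨n, Finset.mem_Icc.2 (abs_le.1 (by exact_mod_cast n1)), n2.symm⟩)]
      simp
  refine (Finset.sum_le_sum fun v _ => h1 v).trans ?_
  rw [Finset.sum_add_distrib, Finset.sum_ite_mem, Finset.univ_inter, Finset.sum_const,
    Finset.sum_const, Finset.card_univ, ZMod.card, nsmul_eq_mul, nsmul_eq_mul, mul_one]
  have h2 := Finset.card_image_le (s := Finset.Icc (-(2 * R : ℤ)) (2 * R))
    (f := fun n : ℤ => u + n)
  have e : ((2 * R : ℤ) + 1 - -(2 * R : ℤ)).toNat = 4 * R + 1 := by omega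
  rw [Int.card_Icc, e] at h2
  have h3 : ((((Finset.Icc (-(2 * R : ℤ)) (2 * R)).image fun n : ℤ => u + n).card : ℕ) : ℝ) ≤
      4 * R + 1 := by exact_mod_cast h2
  gcongr

/-- The conjugates `x ^ j * y * x ^ (-j)`. -/
def cj (φ : A ≃* A') (y : B) (j : Fin 3) : HNNExtension B A A' φ :=
  t ^ (j : ℕ) * of y * (t ^ (j : ℕ))⁻¹

theorem lev_cj {y : B} (hy : r y = 1) (L R : ℕ) (j : Fin 3) :
    lev r hr ρ L R (cj φ y j) ∈ win P (R + 2) (0 : ZMod L) := by
  have h0 : lev r hr ρ L R (of y) ∈ win P R (0 : ZMod L) := by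
    rw [lev_of]
    exact ⟨rfl, fun q hq => by simp [hq, hy]⟩
  have h1 := conj_mem_win _ (lev r hr ρ L R (t ^ (j : ℕ))) _ h0
  have h2 : (lev r hr ρ L R (t ^ (j : ℕ))).right = ofAdd ((j : ℕ) : ZMod L) := by
    rw [← RegularWreathProduct.rightHom_eq_right, map_pow, map_pow,
      RegularWreathProduct.rightHom_eq_right, lev_t, ← ofAdd_nsmul]
    simp
  rw [h2] at h1
  rw [cj, map_mul, map_mul, map_inv]
  refine ⟨h1.1, fun q hq => h1.2 q fun ⟨n, n1, n2⟩ => hq ⟨j + n, ?_, ?_⟩⟩
  · have := abs_add_le ((j : ℕ) : ℤ) n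
    have h3 := j.2
    rw [Nat.abs_cast] at this
    push_cast
    omega
  · rw [n2]
    simp

theorem addRight_pow {L : ℕ} (k : ℕ) (v : ZMod L) :
    ((Equiv.addRight (1 : ZMod L)) ^ k) v = v + k := by
  induction k with
  | zero => simp
  | succ k ih =>
    rw [pow_succ', Equiv.Perm.mul_apply, ih, Nat.cast_succ, ← add_assoc]
    rfl

/-- The wreath product quotient as a stage. -/
noncomputable def levStage [Finite P] {y : B} (hy : r y = 1) (L R : ℕ) [NeZero L] :
    Stage (t : HNNExtension B A A' φ) (cj φ y) where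
  H := RegularWreathProduct P (Multiplicative (ZMod L))
  π := lev r hr ρ L R
  ι := ZMod L
  σ := Equiv.addRight 1
  I := win P (R + 2)
  shift := fun u h => by
    have := conj_mem_win_iff (R := R + 2) u (lev r hr ρ L R t) h
    rwa [show (lev r hr ρ L R t).right.toAdd = 1 by rw [lev_t]; rfl] at this
  norm := fun j u h => by
    have := conj_mem_win_iff (R := R + 2) u (lev r hr ρ L R (cj φ y j)) h
    rwa [(lev_cj r hr ρ hy L R j).1, toAdd_one, add_zero] at this
  hit := fun u => ⟨(-u).val, fun j => by simpa using lev_cj r hr ρ hy L R j⟩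

include hr in
theorem exists_next [Group.ResiduallyFinite (HNNExtension B A A' φ)] {y : B} (hy : r y = 1) {β : ℝ}
    (S : Stage (t : HNNExtension B A A' φ) (cj φ y))
    (hS : S.tot < β * (Fintype.card S.ι : ℝ) ^ 2) (g : HNNExtension B A A' φ) :
    ∃ S' : Stage (t : HNNExtension B A A' φ) (cj φ y),
      S'.tot < β * (Fintype.card S'.ι : ℝ) ^ 2 ∧ S'.π.ker ≤ S.π.ker ∧ (g ∈ S'.π.ker → g = 1) := by
  by_cases hg : g = 1
  · exact ⟨S, hS, le_rfl, fun _ => hg⟩
  obtain ⟨M, hM⟩ := Group.exists_finiteIndexNormalSubgroup_notMem g hg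
  let ρ := QuotientGroup.mk' M.toSubgroup
  have : Finite (HNNExtension B A A' φ ⧸ M.toSubgroup) := Subgroup.finite_quotient_of_finiteIndex
  obtain ⟨d, R, hR⟩ := lev_sees r hr ρ g
  set c : ℝ := (4 * (R + 2 : ℕ) + 1) *
    (Nat.card (HNNExtension B A A' φ ⧸ M.toSubgroup) : ℝ) ^ (2 * (R + 2) + 1) with hc
  have hc0 : 0 ≤ c := by positivity
  obtain ⟨K, hK⟩ := exists_nat_gt (S.tot * c / (β * (Fintype.card S.ι : ℝ) ^ 2 - S.tot))
  have hm : 0 < orderOf S.σ := orderOf_pos _
  obtain ⟨L, hL⟩ : ∃ L, L = K * orderOf S.σ + 1 := ⟨_, rfl⟩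
  have : NeZero L := ⟨by omega⟩
  let T := levStage r hr ρ hy L R
  refine ⟨S.prod T fun u (v : ZMod L) => ?_, ?_, fun a ha => ?_, fun h => ?_⟩
  · obtain ⟨s, hs⟩ := S.hit u
    refine ⟨s + orderOf S.σ * (K * (v.val + s)), fun j => ?_, fun j => ?_⟩
    · rw [pow_add, pow_mul, pow_orderOf_eq_one, one_pow, mul_one]
      exact hs j
    · have h0 : ((K * orderOf S.σ + 1 : ℕ) : ZMod L) = 0 := hL ▸ ZMod.natCast_self L
      have h1 : ((Equiv.addRight (1 : ZMod L)) ^ (s + orderOf S.σ * (K * (v.val + s)))) v = 0 := by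
        rw [addRight_pow]
        push_cast at h0 ⊢
        rw [ZMod.natCast_zmod_val]
        linear_combination (v + s) * h0
      have h2 := lev_cj r hr ρ hy L R j
      rw [← h1] at h2
      exact h2
  · refine (Stage.tot_prod S T _).trans_lt ?_
    have h1 : T.tot ≤ L * (L + c) := by
      have : T.tot ≤ ∑ _u : ZMod L, ((L : ℝ) + c) :=
        Finset.sum_le_sum fun u _ => sum_card_win (R + 2) u
      simpa [mul_add] using this
    have h2 : (Fintype.card (S.ι × ZMod L) : ℝ) = Fintype.card S.ι * L := by simp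
    change _ < β * (Fintype.card (S.ι × ZMod L) : ℝ) ^ 2
    rw [div_lt_iff₀ (by linarith)] at hK
    have h3 : (K : ℝ) + 1 ≤ L := by
      have : K + 1 ≤ L := by nlinarith
      exact_mod_cast this
    have h4 : (0 : ℝ) ≤ K := Nat.cast_nonneg K
    have h5 : S.tot * c < L * (β * (Fintype.card S.ι : ℝ) ^ 2 - S.tot) := by nlinarith
    have h6 := mul_lt_mul_of_pos_left h5 (show (0 : ℝ) < L by linarith)
    have h7 := mul_le_mul_of_nonneg_left h1 S.tot_nonneg
    rw [h2]
    nlinarith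
  · exact congrArg Prod.fst ha
  · have h1 : lev r hr ρ L R g = 1 := congrArg Prod.snd h
    have h2 := (hR L R).2 0 (by simp)
    rw [h1] at h2
    exact absurd ((QuotientGroup.eq_one_iff g).1 h2.symm) hM

include hr in
theorem exists_chain [Group.ResiduallyFinite (HNNExtension B A A' φ)]
    [Countable (HNNExtension B A A' φ)] {y : B} (hy : r y = 1) {β : ℝ} (hβ : 1 < β) :
    ∃ S : ℕ → Stage (t : HNNExtension B A A' φ) (cj φ y),
      (∀ n, (S n).tot < β * (Fintype.card (S n).ι : ℝ) ^ 2) ∧ (S 0).π.ker = ⊤ ∧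
        (Antitone fun n => (S n).π.ker) ∧ ⨅ n, (S n).π.ker = ⊥ := by
  obtain ⟨e, he⟩ := exists_surjective_nat (HNNExtension B A A' φ)
  choose nx h1 h2 h3 using fun (S : {S : Stage (t : HNNExtension B A A' φ) (cj φ y) //
    S.tot < β * (Fintype.card S.ι : ℝ) ^ 2}) g => exists_next r hr hy S.1 S.2 g
  let f : ℕ → {S : Stage (t : HNNExtension B A A' φ) (cj φ y) //
      S.tot < β * (Fintype.card S.ι : ℝ) ^ 2} := fun n => n.rec
    ⟨Stage.triv _ _, Stage.triv_tot hβ⟩ fun n S => ⟨nx S (e n), h1 _ _⟩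
  refine ⟨fun n => (f n).1, fun n => (f n).2, MonoidHom.ker_one,
    antitone_nat_of_succ_le fun n => h2 (f n) (e n), ?_⟩
  rw [eq_bot_iff]
  intro g hg
  obtain ⟨n, rfl⟩ := he g
  exact h3 (f n) (e n) (Subgroup.mem_iInf.1 hg (n + 1))

end Pool.Agent.Lib.MP_570070_gt
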