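import Mathlib

/-! The Fuglede-Kadison determinant of an element of the integral group ring. -/

namespace Pool.Agent.Lib.MP_570070_gt

open MeasureTheory

variable {G : Type} [Group G]

/-- The involution `a ↦ a*` of the integral group ring, sending each group element to its
inverse. Right multiplication by `a*` on `ℓ²(G)` is the adjoint of right multiplication by `a`. -/
noncomputable def invol (a : MonoidAlgebra ℤ G) : MonoidAlgebra ℤ G :=
  MonoidAlgebra.mapDomain (fun g => g⁻¹) a

/-- `μ` is the spectral measure, for the von Neumann trace, of `f* f`, where `f` is right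
multiplication by `a` on `ℓ²(G)` (so `f* f` is right multiplication by `a a*`): a probability
measure carried by a compact interval `[0, R]` whose `k`-th moment is the coefficient of the
identity in `(a a*) ^ k`. The moments determine such a measure. -/
def IsSpec (a : MonoidAlgebra ℤ G) (μ : Measure ℝ) : Prop :=
  IsProbabilityMeasure μ ∧ (∃ R : ℝ, μ (Set.Icc 0 R)ᶜ = 0) ∧
    ∀ k : ℕ, ∫ s, s ^ k ∂μ = (((a * invol a) ^ k).coeff 1 : ℝ)

/-- The Fuglede-Kadison determinant of right multiplication by `a` on `ℓ²(G)` is positive and its
logarithm is `v`. -/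
def IsLogDet (a : MonoidAlgebra ℤ G) (v : ℝ) : Prop :=
  ∃ μ : Measure ℝ, IsSpec a μ ∧ IntegrableOn Real.log (Set.Ioi 0) μ ∧
    v = (∫ s in Set.Ioi 0, Real.log s ∂μ) / 2

end Pool.Agent.Lib.MP_570070_gt
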