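import Pool.Agent.Lib.MP_75c153_gt.Cover

/-! Finite-dimensional part: a matrix that is unipotent on most of the space has a small
logarithmic determinant. -/

namespace Pool.Agent.Lib.MP_570070_gt

open Matrix Pool.Agent.Lib.MP_75c153_gt

variable {n : Type} [Fintype n] [DecidableEq n]

theorem exists_kerProj (T : Matrix n n ℝ) (hT : Tᵀ = T) :
    ∃ U S : Matrix n n ℝ, Uᵀ = U ∧ U * U = U ∧ T * U = 0 ∧ 1 - U = T * S ∧
      ∀ X, Commute T X → Commute U X := by
  have hH : T.IsHermitian := by
    rw [IsHermitian, conjTranspose_eq_transpose_of_trivial, hT]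
  have hs : IsSelfAdjoint T := hH.isSelfAdjoint
  have hc : ∀ f : ℝ → ℝ, ContinuousOn f (spectrum ℝ T) := fun f =>
    Matrix.finite_real_spectrum.continuousOn f
  let f : ℝ → ℝ := fun t => if t = 0 then 1 else 0
  refine ⟨cfc f T, cfc (fun t : ℝ => t⁻¹) T, ?_, ?_, ?_, ?_, fun X hX => hX.cfc_real f⟩
  · have h : IsSelfAdjoint (cfc f T) := cfc_predicate f T
    rw [← conjTranspose_eq_transpose_of_trivial]
    exact h
  · rw [← cfc_mul f f T (hc _) (hc _)]
    congr 1
    funext t
    simp only [f]
    split_ifs <;> simp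
  · have h : T * cfc f T = cfc (fun t => t * f t) T := by
      rw [cfc_mul (fun t => t) f T (hc _) (hc _), cfc_id' ℝ T]
    rw [h]
    have : (fun t => t * f t) = fun _ => (0 : ℝ) := by
      funext t
      simp only [f]
      split_ifs with h0 <;> simp [h0]
    rw [this, cfc_const_zero]
  · have h : T * cfc (fun t : ℝ => t⁻¹) T = cfc (fun t : ℝ => t * t⁻¹) T := by
      rw [cfc_mul (fun t => t) (fun t : ℝ => t⁻¹) T (hc _) (hc _), cfc_id' ℝ T]
    rw [h, ← cfc_const_one ℝ T, ← cfc_sub (fun _ => (1 : ℝ)) f T (hc _) (hc _)]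
    congr 1
    funext t
    simp only [f]
    split_ifs with h0
    · simp [h0]
    · simp [h0]

omit [DecidableEq n] in
theorem trace_mul_transpose_nonneg (X : Matrix n n ℝ) : 0 ≤ (X * Xᵀ).trace := by
  simp only [trace, diag, mul_apply, transpose_apply]
  exact Finset.sum_nonneg fun i _ => Finset.sum_nonneg fun j _ => mul_self_nonneg _

/-- Chebyshev inequality for the projection on the kernel. -/
theorem trace_kerProj_le {T U : Matrix n n ℝ} (hT : Tᵀ = T) (hU : Uᵀ = U) (hUU : U * U = U)
    (hTU : T * U = 0) (c : ℝ) :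
    c ^ 2 * U.trace ≤ (T * T).trace - 2 * c * T.trace + c ^ 2 * Fintype.card n := by
  have hUT : U * T = 0 := by
    have := congrArg transpose hTU
    rwa [transpose_mul, hT, hU, transpose_zero] at this
  have h := trace_mul_transpose_nonneg (T - c • (1 - U))
  rw [transpose_sub, transpose_smul, transpose_sub, hT, hU, transpose_one] at h
  have e : (T - c • (1 - U)) * (T - c • (1 - U)) = T * T - (2 * c) • T + c ^ 2 • (1 - U) := by
    simp only [sub_mul, mul_sub, Matrix.mul_smul, Matrix.smul_mul, mul_one, one_mul, hTU, hUT,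
      hUU, smul_sub, smul_smul]
    module
  rw [e, trace_add, trace_sub, trace_smul, trace_smul, trace_sub, trace_one] at h
  simp only [smul_eq_mul] at h
  linarith

theorem abs_trace_orth_le {O U : Matrix n n ℝ} (hO : Oᵀ * O = 1) (hU : Uᵀ = U)
    (hUU : U * U = U) : |(O * U).trace| ≤ U.trace := by
  have h1 := trace_mul_transpose_nonneg (U - O * U)
  have h2 := trace_mul_transpose_nonneg (U + O * U)
  have e1 : (U * (U * Oᵀ)).trace = (O * U).trace := by
    rw [← Matrix.mul_assoc, hUU, ← trace_transpose, transpose_mul, transpose_transpose, hU]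
  have e2 : (O * U * U).trace = (O * U).trace := by rw [Matrix.mul_assoc, hUU]
  have e3 : (O * U * (U * Oᵀ)).trace = U.trace := by
    rw [trace_mul_comm, Matrix.mul_assoc, ← Matrix.mul_assoc Oᵀ, hO, Matrix.one_mul, hUU]
  rw [transpose_sub, transpose_mul, hU, sub_mul, mul_sub, mul_sub, trace_sub, trace_sub,
    trace_sub, hUU, e1, e2, e3] at h1
  rw [transpose_add, transpose_mul, hU, add_mul, mul_add, mul_add, trace_add, trace_add,
    trace_add, hUU, e1, e2, e3] at h2
  rw [abs_le]
  constructor <;> linarith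

theorem split_pow {M U : Matrix n n ℝ} (hUU : U * U = U) (hc : Commute M U) (k : ℕ) :
    (M * U + (1 - U)) ^ k = M ^ k * U + (1 - U) := by
  induction k with
  | zero => simp
  | succ k ih =>
    have h1 : U * (1 - U) = 0 := by rw [mul_sub, mul_one, hUU, sub_self]
    have h2 : (1 - U) * U = 0 := by rw [sub_mul, one_mul, hUU, sub_self]
    have h3 : (1 - U) * (1 - U) = 1 - U := by rw [sub_mul, one_mul, h1, sub_zero]
    rw [pow_succ, ih, add_mul, mul_add, mul_add, mul_assoc _ U (1 - U), h1, h3,
      mul_assoc _ U, ← mul_assoc U, ← hc.eq, mul_assoc M, hUU, hc.eq, ← mul_assoc (1 - U), h2,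
      ← hc.eq, ← mul_assoc, ← pow_succ]
    simp

theorem det_one_add_nil {X : Matrix n n ℝ} (h : IsNilpotent X) : (1 + X).det = 1 := by
  have h1 := (isNilpotent_charpoly_sub_pow_of_isNilpotent h.neg).eq_zero
  have h2 := eval_charpoly (-X) 1
  rw [sub_eq_zero.1 h1] at h2
  simpa using h2.symm

theorem log_le_sq_sub {x : ℝ} (hx : 0 ≤ x) : Real.log x ≤ x ^ 2 - x ^ 1 := by
  rcases hx.eq_or_lt with rfl | hx
  · simp
  · nlinarith [Real.log_le_sub_one_of_pos hx, sq_nonneg (x - 1)]

/-- If `A - 1` is nilpotent on the range of `1 - U`, the logarithmic determinant of `A Aᵀ` is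
controlled by its part on the range of `U`. -/
theorem sum_log_le {A U : Matrix n n ℝ} (hU : Uᵀ = U) (hUU : U * U = U) (hc : Commute A U)
    (hnil : IsNilpotent ((A - 1) * (1 - U))) (hM : (A * Aᵀ).IsHermitian) :
    ((eigs hM).map Real.log).sum ≤ ((A * Aᵀ * (A * Aᵀ) - A * Aᵀ) * U).trace := by
  have hc' : Commute Aᵀ U := by
    have := congrArg transpose hc.eq
    rw [transpose_mul, transpose_mul, hU] at this
    exact this.symm
  have hMU : Commute (A * Aᵀ) U := hc.mul_left hc'
  have key : ∀ V : Matrix n n ℝ, Vᵀ = V → V * V = V → Commute A V →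
      A * Aᵀ * V + (1 - V) = (A * V + (1 - V)) * (A * V + (1 - V))ᴴ := by
    intro V hV hVV hAV
    have h1 : V * (1 - V) = 0 := by rw [mul_sub, mul_one, hVV, sub_self]
    have h2 : (1 - V) * V = 0 := by rw [sub_mul, one_mul, hVV, sub_self]
    have h3 : (1 - V) * (1 - V) = 1 - V := by rw [sub_mul, one_mul, h1, sub_zero]
    have h4 : V * Aᵀ = Aᵀ * V := by
      have := congrArg transpose hAV.eq
      rwa [transpose_mul, transpose_mul, hV] at this
    rw [conjTranspose_eq_transpose_of_trivial, transpose_add, transpose_mul, transpose_sub,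
      transpose_one, hV, add_mul, mul_add, mul_add, h3, mul_assoc A V (1 - V), h1,
      ← mul_assoc (1 - V), h2, mul_assoc A V, ← mul_assoc V V, hVV, h4, mul_assoc]
    simp
  have hV : (1 - U)ᵀ = 1 - U := by rw [transpose_sub, transpose_one, hU]
  have hVV : (1 - U) * (1 - U) = 1 - U := by
    rw [sub_mul, one_mul, mul_sub, mul_one, hUU, sub_self, sub_zero]
  have hcV : Commute A (1 - U) := (Commute.one_right A).sub_right hc
  have hMV : Commute (A * Aᵀ) (1 - U) := (Commute.one_right _).sub_right hMU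
  have p1 : (A * Aᵀ * (1 - U) + (1 - (1 - U))).PosSemidef := by
    rw [key _ hV hVV hcV]
    exact posSemidef_self_mul_conjTranspose _
  have p2 : (A * Aᵀ * U + (1 - U)).PosSemidef := by
    rw [key _ hU hUU hc]
    exact posSemidef_self_mul_conjTranspose _
  have d1 : (A * Aᵀ * (1 - U) + (1 - (1 - U))).det = 1 := by
    have e : A * (1 - U) + (1 - (1 - U)) = 1 + (A - 1) * (1 - U) := by noncomm_ring
    rw [key _ hV hVV hcV, det_mul, det_conjTranspose, e, det_one_add_nil hnil]
    simp
  have s1 := (sum_log_eigs_of_det p1 (by rw [d1]; exact one_ne_zero)).1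
  rw [d1, norm_one, Real.log_one] at s1
  have t0 := fun k => trace_pow_eq hM k
  have t1 := fun k => trace_pow_eq p1.isHermitian k
  have t2 := fun k => trace_pow_eq p2.isHermitian k
  simp only [RCLike.ofReal_real_eq_id, id] at t0 t1 t2
  have e := multiset_sum_eq_of_powers (eigs hM + Multiset.replicate (Fintype.card n) 1)
    (eigs p1.isHermitian + eigs p2.isHermitian) (fun k => by
      rw [Multiset.map_add, Multiset.map_add, Multiset.sum_add, Multiset.sum_add, ← t0, ← t1,
        ← t2, split_pow hUU hMU, split_pow hVV hMV, ← trace_add]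
      have : (A * Aᵀ) ^ (k + 1) * (1 - U) + (1 - (1 - U)) + ((A * Aᵀ) ^ (k + 1) * U + (1 - U)) =
          (A * Aᵀ) ^ (k + 1) + 1 := by noncomm_ring
      rw [this, trace_add, trace_one]
      simp) Real.log Real.log_zero
  rw [Multiset.map_add, Multiset.map_add, Multiset.sum_add, Multiset.sum_add, s1] at e
  have s2 : ((eigs p2.isHermitian).map Real.log).sum ≤
      ((eigs p2.isHermitian).map fun x => x ^ 2 - x ^ 1).sum :=
    Multiset.sum_map_le_sum_map _ _ fun x hx => log_le_sq_sub (eigs_nonneg p2 x hx)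
  rw [Multiset.sum_map_sub, ← t2, ← t2, split_pow hUU hMU, split_pow hUU hMU, ← trace_sub] at s2
  have : (A * Aᵀ) ^ 2 * U + (1 - U) - ((A * Aᵀ) ^ 1 * U + (1 - U)) =
      (A * Aᵀ * (A * Aᵀ) - A * Aᵀ) * U := by noncomm_ring
  rw [this] at s2
  simp only [Multiset.map_replicate, Real.log_one, Multiset.sum_replicate, smul_zero] at e
  linarith

end Pool.Agent.Lib.MP_570070_gt
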