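import Pool.Agent.Lib.MP_570070_gt.Mat

/-! Finite quotients with many cuts. -/

namespace Pool.Agent.Lib.MP_570070_gt

open Matrix Pool.Agent.Lib.MP_75c153_gt

variable {G : Type} [Group G]

/-- A homomorphism to a finite group with a family of subgroups that is permuted by `x`,
normalised by the `ys j`, and such that every orbit has a member containing all `ys j`. -/
structure Stage (x : G) (ys : Fin 3 → G) : Type 1 where
  H : Type
  [grp : Group H]
  [fin : Finite H]
  π : G →* H
  ι : Type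
  [fι : Fintype ι]
  σ : Equiv.Perm ι
  I : ι → Subgroup H
  shift : ∀ t h, π x * h * (π x)⁻¹ ∈ I (σ t) ↔ h ∈ I t
  norm : ∀ j t h, π (ys j) * h * (π (ys j))⁻¹ ∈ I t ↔ h ∈ I t
  hit : ∀ t, ∃ s : ℕ, ∀ j, π (ys j) ∈ I ((σ ^ s) t)

attribute [instance] Stage.grp Stage.fin Stage.fι

variable {x : G} {ys : Fin 3 → G}

/-- The total size of the pairwise intersections. -/
noncomputable def Stage.tot (S : Stage x ys) : ℝ :=
  ∑ s, ∑ t, (Nat.card ↥(S.I s ⊓ S.I t) : ℝ)

theorem Stage.tot_nonneg (S : Stage x ys) : 0 ≤ S.tot :=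
  Finset.sum_nonneg fun _ _ => Finset.sum_nonneg fun _ _ => Nat.cast_nonneg _

/-- The diagonal map to the product of two stages. -/
def Stage.prod (S T : Stage x ys)
    (h : ∀ t u, ∃ s : ℕ, (∀ j, S.π (ys j) ∈ S.I ((S.σ ^ s) t)) ∧
      ∀ j, T.π (ys j) ∈ T.I ((T.σ ^ s) u)) : Stage x ys where
  H := S.H × T.H
  π := S.π.prod T.π
  ι := S.ι × T.ι
  σ := Equiv.prodCongr S.σ T.σ
  I := fun p => (S.I p.1).prod (T.I p.2)
  shift := fun t h => by
    simp only [Subgroup.mem_prod]
    exact and_congr (S.shift t.1 h.1) (T.shift t.2 h.2)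
  norm := fun j t h => by
    simp only [Subgroup.mem_prod]
    exact and_congr (S.norm j t.1 h.1) (T.norm j t.2 h.2)
  hit := fun t => by
    obtain ⟨s, h1, h2⟩ := h t.1 t.2
    have e : ∀ k : ℕ, ((Equiv.prodCongr S.σ T.σ : Equiv.Perm (S.ι × T.ι)) ^ k) t =
        ((S.σ ^ k) t.1, (T.σ ^ k) t.2) := by
      intro k
      induction k with
      | zero => rfl
      | succ k ih =>
        rw [pow_succ', pow_succ', pow_succ', Equiv.Perm.mul_apply, ih]
        rfl
    refine ⟨s, fun j => ?_⟩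
    rw [e]
    exact ⟨h1 j, h2 j⟩

theorem Stage.tot_prod (S T : Stage x ys) (h) : (S.prod T h).tot = S.tot * T.tot := by
  have e : ∀ p q : S.ι × T.ι, (Nat.card ↥((S.I p.1).prod (T.I p.2) ⊓ (S.I q.1).prod (T.I q.2)) : ℝ)
      = (Nat.card ↥(S.I p.1 ⊓ S.I q.1) : ℝ) * (Nat.card ↥(T.I p.2 ⊓ T.I q.2) : ℝ) := by
    intro p q
    have : (S.I p.1).prod (T.I p.2) ⊓ (S.I q.1).prod (T.I q.2) =
        (S.I p.1 ⊓ S.I q.1).prod (T.I p.2 ⊓ T.I q.2) := by
      ext z
      simp only [Subgroup.mem_inf, Subgroup.mem_prod]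
      tauto
    rw [this, Nat.card_congr (Subgroup.prodEquiv _ _).toEquiv, Nat.card_prod, Nat.cast_mul]
  change ∑ p : S.ι × T.ι, ∑ q : S.ι × T.ι,
    (Nat.card ↥((S.I p.1).prod (T.I p.2) ⊓ (S.I q.1).prod (T.I q.2)) : ℝ) = _
  simp only [e, Fintype.sum_prod_type, Stage.tot, Finset.sum_mul_sum]

/-- The trivial stage. -/
def Stage.triv (x : G) (ys : Fin 3 → G) : Stage x ys where
  H := Unit
  π := 1
  ι := Unit
  σ := 1
  I := fun _ => ⊤
  shift := fun _ _ => by simp
  norm := fun _ _ _ => by simp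
  hit := fun _ => ⟨0, fun _ => by simp⟩

theorem Stage.triv_tot {β : ℝ} (hβ : 1 < β) :
    (Stage.triv x ys).tot < β * (Fintype.card (Stage.triv x ys).ι : ℝ) ^ 2 := by
  change ∑ _s : Unit, ∑ _t : Unit, (Nat.card ↥((⊤ : Subgroup Unit) ⊓ ⊤) : ℝ) <
    β * (Fintype.card Unit : ℝ) ^ 2
  simpa using hβ

/-- The right regular representation by permutation matrices. -/
def reg (H : Type) [Group H] [Fintype H] [DecidableEq H] : H →* Matrix H H ℝ where
  toFun g := Matrix.of fun u v => if u * g = v then 1 else 0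
  map_one' := by
    ext u v
    simp [Matrix.one_apply]
  map_mul' g h := by
    ext u v
    simp only [Matrix.mul_apply, of_apply, ite_mul, one_mul, zero_mul,
      Finset.sum_ite_eq, Finset.mem_univ, if_true, mul_assoc]

section reg

variable {H : Type} [Group H] [Fintype H] [DecidableEq H]

theorem reg_inv (g : H) : reg H g⁻¹ = (reg H g)ᵀ := by
  ext u v
  simp only [reg, MonoidHom.coe_mk, OneHom.coe_mk, of_apply, transpose_apply]
  congr 1
  rw [mul_inv_eq_iff_eq_mul]
  exact propext eq_comm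

theorem reg_trace (g : H) : (reg H g).trace = if g = 1 then (Fintype.card H : ℝ) else 0 := by
  simp only [reg, MonoidHom.coe_mk, OneHom.coe_mk, trace, diag, of_apply, mul_eq_left]
  split_ifs <;> simp

open Classical in
/-- The sum of a subgroup in the regular representation. -/
noncomputable def sumOf (I : Subgroup H) : Matrix H H ℝ := ∑ h, if h ∈ I then reg H h else 0

theorem sumOf_transpose (I : Subgroup H) : (sumOf I)ᵀ = sumOf I := by
  rw [sumOf, transpose_sum, ← Equiv.sum_comp (Equiv.inv H)]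
  refine Finset.sum_congr rfl fun h _ => ?_
  rw [Equiv.inv_apply]
  by_cases h1 : h ∈ I
  · rw [if_pos h1, if_pos (I.inv_mem h1), reg_inv, transpose_transpose]
  · rw [if_neg h1, if_neg (fun h2 => h1 (inv_mem_iff.1 h2)), transpose_zero]

open Classical in
theorem conj_sumOf {I J : Subgroup H} {g : H} (h : ∀ k, g * k * g⁻¹ ∈ J ↔ k ∈ I) :
    reg H g * sumOf I = sumOf J * reg H g := by
  rw [sumOf, sumOf, Finset.mul_sum, Finset.sum_mul]
  conv_rhs => rw [← Equiv.sum_comp (MulAut.conj g).toEquiv]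
  refine Finset.sum_congr rfl fun k _ => ?_
  change _ = (ite (g * k * g⁻¹ ∈ J) (reg H (g * k * g⁻¹)) 0) * _
  by_cases h1 : k ∈ I
  · rw [if_pos h1, if_pos ((h k).2 h1), ← map_mul, ← map_mul, inv_mul_cancel_right]
  · rw [if_neg h1, if_neg (fun h2 => h1 ((h k).1 h2)), mul_zero, zero_mul]

theorem mul_sumOf {I : Subgroup H} {g : H} (h : g ∈ I) : reg H g * sumOf I = sumOf I := by
  rw [sumOf]
  conv_rhs => rw [← Equiv.sum_comp (Equiv.mulLeft g)]
  rw [Finset.mul_sum]
  refine Finset.sum_congr rfl fun k _ => ?_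
  rw [Equiv.coe_mulLeft]
  by_cases h1 : k ∈ I
  · rw [if_pos h1, if_pos (I.mul_mem h h1), map_mul]
  · rw [if_neg h1, if_neg (fun h2 => h1 ((mul_mem_cancel_left h).1 h2)), mul_zero]

theorem trace_sumOf (I : Subgroup H) : (sumOf I).trace = Fintype.card H := by
  rw [sumOf, trace_sum, Finset.sum_eq_single 1]
  · simp [I.one_mem]
  · intro k _ hk
    split_ifs
    · rw [reg_trace, if_neg hk]
    · simp
  · simp

theorem trace_sumOf_mul (I J : Subgroup H) :
    (sumOf I * sumOf J).trace = (Nat.card ↥(I ⊓ J) : ℝ) * Fintype.card H := by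
  classical
  have e : ∀ k, ((if k ∈ I then reg H k else 0) * sumOf J).trace =
      (if k ∈ I ⊓ J then 1 else 0 : ℝ) * Fintype.card H := by
    intro k
    by_cases h1 : k ∈ I
    · by_cases h2 : k ∈ J
      · rw [if_pos h1, mul_sumOf h2, trace_sumOf, if_pos ⟨h1, h2⟩, one_mul]
      · rw [if_pos h1, if_neg (fun h => h2 h.2), zero_mul, sumOf, Finset.mul_sum, trace_sum]
        refine Finset.sum_eq_zero fun l _ => ?_
        split_ifs with h3
        · rw [← map_mul, reg_trace, if_neg]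
          intro h4
          exact h2 (by rw [mul_eq_one_iff_eq_inv.1 h4]; exact J.inv_mem h3)
        · simp
    · rw [if_neg h1, if_neg (fun h => h1 h.1), zero_mul, zero_mul, trace_zero]
  conv_lhs => rw [sumOf, Finset.sum_mul, trace_sum]
  simp only [e]
  rw [← Finset.sum_mul, Finset.sum_boole, Nat.card_eq_fintype_card, Fintype.card_subtype]

end reg

/-- The element `1 + 18 x (3 - y₀ - y₁ - y₂)` of the integral group ring. -/
noncomputable def elt (x : G) (ys : Fin 3 → G) : MonoidAlgebra ℤ G :=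
  1 + 18 * (MonoidAlgebra.single x 1 * ∑ j, (1 - MonoidAlgebra.single (ys j) 1))

theorem Stage.sum_log_le (S : Stage x ys) [Fintype S.H] [DecidableEq S.H] {δ : ℝ}
    (hδ : S.tot < (1 + δ) * (Fintype.card S.ι : ℝ) ^ 2)
    (hM : (rep ((reg S.H).comp S.π) (elt x ys) *
      (rep ((reg S.H).comp S.π) (elt x ys))ᵀ).IsHermitian) :
    ((eigs hM).map Real.log).sum ≤
      l1 (elt x ys * bar (elt x ys) * (elt x ys * bar (elt x ys)) - elt x ys * bar (elt x ys)) *
        (δ * Fintype.card S.H) := by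
  set ρ := (reg S.H).comp S.π with hρ
  have hρ' : ∀ g, ρ g⁻¹ = (ρ g)ᴴ := fun g => by
    rw [conjTranspose_eq_transpose_of_trivial, hρ, MonoidHom.comp_apply, map_inv, reg_inv]
    rfl
  set T : Matrix S.H S.H ℝ := ∑ t, sumOf (S.I t) with hT
  set b : Matrix S.H S.H ℝ := ∑ j, (1 - ρ (ys j)) with hb
  have hA : rep ρ (elt x ys) = 1 + (18 : ℝ) • (ρ x * b) := by
    simp only [elt, map_add, map_one, map_mul, map_sum, map_sub, rep_single, one_smul, hb,
      map_ofNat]
    rw [← Nat.cast_ofNat (n := 18), ← nsmul_eq_mul, ← Nat.cast_smul_eq_nsmul ℝ]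
    rfl
  have hTt : Tᵀ = T := by simp only [hT, transpose_sum, sumOf_transpose]
  have hbF : ∀ t, b * sumOf (S.I t) = sumOf (S.I t) * b := fun t => by
    simp only [hb, Finset.sum_mul, Finset.mul_sum, sub_mul, mul_sub, one_mul, mul_one]
    exact Finset.sum_congr rfl fun j _ => congrArg _ (conj_sumOf (S.norm j t))
  have hNF : ∀ t, ρ x * b * sumOf (S.I t) = sumOf (S.I (S.σ t)) * (ρ x * b) := fun t => by
    rw [mul_assoc, hbF, ← mul_assoc, ← mul_assoc]
    exact congrArg (· * b) (conj_sumOf (S.shift t))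
  have hNF' : ∀ (k : ℕ) t, (ρ x * b) ^ k * sumOf (S.I t) =
      sumOf (S.I ((S.σ ^ k) t)) * (ρ x * b) ^ k := by
    intro k t
    induction k with
    | zero => simp
    | succ k ih => rw [pow_succ', mul_assoc, ih, ← mul_assoc, hNF, mul_assoc, pow_succ' S.σ]; rfl
  have hTN : Commute T (ρ x * b) := by
    rw [Commute, SemiconjBy, hT, Finset.sum_mul, ← Equiv.sum_comp S.σ,
      Finset.mul_sum (a := ρ x * b)]
    exact Finset.sum_congr rfl fun t _ => (hNF t).symm
  choose s hs using S.hit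
  have hz : ∀ t, (ρ x * b) ^ (s t + 1) * sumOf (S.I t) = 0 := fun t => by
    have : b * sumOf (S.I ((S.σ ^ s t) t)) = 0 := by
      rw [hb, Finset.sum_mul]
      refine Finset.sum_eq_zero fun j _ => ?_
      rw [sub_mul, one_mul, sub_eq_zero]
      exact (mul_sumOf (hs t j)).symm
    rw [pow_succ', mul_assoc, hNF', ← mul_assoc, mul_assoc (ρ x), this, mul_zero, zero_mul]
  have hzT : (ρ x * b) ^ (∑ t, (s t + 1)) * T = 0 := by
    rw [hT, Finset.mul_sum]
    refine Finset.sum_eq_zero fun t _ => ?_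
    obtain ⟨c, hc⟩ := Nat.exists_eq_add_of_le'
      (Finset.single_le_sum (f := fun t => s t + 1) (fun _ _ => Nat.zero_le _) (Finset.mem_univ t))
    rw [hc, pow_add, mul_assoc, hz, mul_zero]
  obtain ⟨U, V, hU, hUU, hTU, hV, hcU⟩ := exists_kerProj T hTt
  have hNU : Commute (ρ x * b) U := (hcU _ hTN).symm
  have hAU : Commute (rep ρ (elt x ys)) U := by
    rw [hA]
    exact (Commute.one_left U).add_left (hNU.smul_left _)
  have hnil : IsNilpotent ((rep ρ (elt x ys) - 1) * (1 - U)) := by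
    have h1 : IsNilpotent (ρ x * b * (1 - U)) := by
      refine ⟨∑ t, (s t + 1) + 1, ?_⟩
      rw [((Commute.one_right _).sub_right hNU).mul_pow, pow_succ', pow_succ', mul_assoc,
        ← mul_assoc _ (1 - U), hV, ← mul_assoc _ T, hzT]
      simp
    rw [hA, add_sub_cancel_left, smul_mul_assoc]
    exact h1.smul _
  refine (MP_570070_gt.sum_log_le hU hUU hAU hnil hM).trans ?_
  have hm : rep ρ (elt x ys) * (rep ρ (elt x ys))ᵀ = rep ρ (elt x ys * bar (elt x ys)) := by
    rw [map_mul, rep_bar ρ hρ', conjTranspose_eq_transpose_of_trivial]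
  rw [hm, ← map_mul, ← map_sub]
  generalize elt x ys * bar (elt x ys) * (elt x ys * bar (elt x ys)) -
    elt x ys * bar (elt x ys) = m
  have hcard : (0 : ℝ) < Fintype.card S.ι := by
    rcases (Nat.cast_nonneg (α := ℝ) (Fintype.card S.ι)).eq_or_lt with h | h
    · rw [← h] at hδ
      have := S.tot_nonneg
      simp only [ne_eq, OfNat.ofNat_ne_zero, not_false_eq_true, zero_pow, mul_zero] at hδ
      linarith
    · exact h
  have hH : (0 : ℝ) ≤ Fintype.card S.H := Nat.cast_nonneg _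
  have htr : U.trace ≤ δ * Fintype.card S.H := by
    have h1 := trace_kerProj_le hTt hU hUU hTU (Fintype.card S.ι)
    have h2 : T.trace = Fintype.card S.ι * Fintype.card S.H := by
      simp [hT, trace_sum, trace_sumOf]
    have h3 : (T * T).trace = S.tot * Fintype.card S.H := by
      rw [hT, Finset.sum_mul_sum]
      simp only [trace_sum, trace_sumOf_mul, Stage.tot, Finset.sum_mul]
    rw [h2, h3] at h1
    have h4 := mul_le_mul_of_nonneg_right hδ.le hH
    refine le_of_mul_le_mul_left ?_ (pow_pos hcard 2)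
    nlinarith
  refine le_trans ?_ (mul_le_mul_of_nonneg_left htr (l1_nonneg m))
  rw [rep_apply, Finset.sum_mul, trace_sum, l1, Finsupp.sum, Finset.sum_mul]
  refine Finset.sum_le_sum fun g _ => ?_
  rw [smul_mul_assoc, trace_smul, zsmul_eq_mul]
  refine (le_abs_self _).trans ?_
  rw [abs_mul]
  refine mul_le_mul_of_nonneg_left (abs_trace_orth_le ?_ hU hUU) (abs_nonneg _)
  rw [← conjTranspose_eq_transpose_of_trivial, ← hρ', ← map_mul, inv_mul_cancel, map_one]

end Pool.Agent.Lib.MP_570070_gt
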